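import Pool.Agent.PCL.Stmts

/-!
# Squad PCL, row RST: restriction to the coordinates with `p i`
-/

set_option autoImplicit false

namespace Pool.Agent.PCL.H45

variable {ι : Type} [Fintype ι] [DecidableEq ι]

/-- extension by zero -/
def ex (p : ι → Prop) [DecidablePred p] (y : {i // p i} → ℤ) : ι → ℤ :=
  fun i => if h : p i then y ⟨i, h⟩ else 0

/-- restriction -/
def rs (p : ι → Prop) (x : ι → ℤ) : {i // p i} → ℤ := fun i => x i.1

theorem rs_ex (p : ι → Prop) [DecidablePred p] (y : {i // p i} → ℤ) : rs p (ex p y) = y := by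
  funext i
  unfold rs ex
  rw [dif_pos i.2]

theorem ex_rs (p : ι → Prop) [DecidablePred p] (x : ι → ℤ) (hx : ∀ i, ¬ p i → x i = 0) :
    ex p (rs p x) = x := by
  funext i
  unfold rs ex
  by_cases h : p i
  · rw [dif_pos h]
  · rw [dif_neg h, hx i h]

theorem ex_out (p : ι → Prop) [DecidablePred p] (y : {i // p i} → ℤ) (i : ι) (h : ¬ p i) :
    ex p y i = 0 := by
  unfold ex
  rw [dif_neg h]

theorem pt_rs (g : ι → ℂ) (p : ι → Prop) [DecidablePred p] (x : ι → ℤ)
    (hx : ∀ i, ¬ p i → x i = 0) : pt (fun i : {i // p i} => g i) (rs p x) = pt g x := by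
  unfold pt rs
  rw [← Fintype.sum_subtype_add_sum_subtype p (fun i => (x i : ℂ) * g i)]
  have h0 : ∑ i : {i // ¬ p i}, ((x i : ℂ) * g i) = 0 := by
    refine Finset.sum_eq_zero fun i _ => ?_
    rw [hx i.1 i.2]
    simp
  rw [h0, add_zero]

theorem pt_ex (g : ι → ℂ) (p : ι → Prop) [DecidablePred p] (y : {i // p i} → ℤ) :
    pt g (ex p y) = pt (fun i : {i // p i} => g i) y := by
  rw [← pt_rs g p (ex p y) (fun i h => ex_out p y i h), rs_ex]

theorem inB_ex (N : ι → ℕ) (p : ι → Prop) [DecidablePred p] (y : {i // p i} → ℤ) (r : ℝ)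
    (hr : 0 ≤ r) (h : InB (fun i : {i // p i} => N i) r y) : InB N r (ex p y) := by
  intro i
  by_cases hp : p i
  · have h1 := h ⟨i, hp⟩
    unfold ex
    rw [dif_pos hp]
    exact h1
  · rw [ex_out p y i hp]
    simp only [Int.cast_zero, abs_zero]
    positivity

theorem inB_rs (N : ι → ℕ) (p : ι → Prop) (x : ι → ℤ) (r : ℝ)
    (h : InB N r x) : InB (fun i : {i // p i} => N i) r (rs p x) := fun i => h i.1

theorem out_zero (N : ι → ℕ) (p : ι → Prop) (ε r : ℝ)
    (hN : ∀ i, ¬ p i → 2 * ε * N i < 1) (hr : r ≤ 2 * ε) (x : ι → ℤ) (hx : InB N r x) :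
    ∀ i, ¬ p i → x i = 0 := by
  intro i hi
  have h1 := hx i
  have h2 := hN i hi
  have h3 : r * (N i : ℝ) ≤ 2 * ε * N i := by
    have : (0 : ℝ) ≤ N i := Nat.cast_nonneg _
    nlinarith
  have h4 : |(x i : ℝ)| < 1 := by linarith
  have h5 : |x i| < 1 := by exact_mod_cast h4
  exact Int.abs_lt_one_iff.1 h5

theorem card_bx_four {κ : Type} [Fintype κ] [DecidableEq κ] (N : κ → ℕ) (hN : ∀ i, 1 ≤ N i) :
    ((bx N 4).card : ℝ) ≤ ∏ i, (9 * (N i : ℝ)) := by
  unfold bx
  rw [Fintype.card_piFinset]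
  push_cast
  refine Finset.prod_le_prod (fun i _ => Nat.cast_nonneg _) fun i _ => ?_
  have hf : ⌊(4 : ℝ) * (N i : ℝ)⌋ = 4 * (N i : ℤ) := by
    have : (4 : ℝ) * (N i : ℝ) = ((4 * (N i : ℤ) : ℤ) : ℝ) := by push_cast; ring
    rw [this, Int.floor_intCast]
  rw [hf, Int.card_Icc]
  have h1 : (4 * (N i : ℤ) + 1 - -(4 * (N i : ℤ))).toNat = 8 * N i + 1 := by
    have : (4 * (N i : ℤ) + 1 - -(4 * (N i : ℤ))) = ((8 * N i + 1 : ℕ) : ℤ) := by
      push_cast; ring
    rw [this, Int.toNat_natCast]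
  rw [h1]
  have h2 : (1 : ℝ) ≤ N i := by exact_mod_cast hN i
  push_cast
  linarith

theorem fiber (g : ι → ℂ) (N : ι → ℕ) (p : ι → Prop) [DecidablePred p] (e : ℂ)
    (hN : ∀ i, 1 ≤ N i) :
    (cnt (Lat g e) N 4 : ℝ) ≤
      (cnt (Lat (fun i : {i // p i} => g i) e) (fun i : {i // p i} => N i) 8 : ℝ) *
        ∏ i : {i // ¬ p i}, (9 * (N i : ℝ)) := by
  classical
  have key : ((bx N 4).filter fun x => x ∈ Lat g e).card ≤
      cnt (Lat (fun i : {i // p i} => g i) e) (fun i : {i // p i} => N i) 8 *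
        (bx (fun i : {i // ¬ p i} => N i) 4).card := by
    refine Finset.card_le_mul_card_image_of_maps_to (f := fun x : ι → ℤ => rs (fun i => ¬ p i) x)
      ?_ _ ?_
    · intro x hx
      rw [Finset.mem_filter, mem_bx] at hx
      rw [mem_bx]
      exact inB_rs N _ x 4 hx.1
    · intro b _
      rcases Finset.eq_empty_or_nonempty
        ((((bx N 4).filter fun x => x ∈ Lat g e)).filter fun x => rs (fun i => ¬ p i) x = b) with
        h0 | ⟨x0, hx0⟩
      · rw [h0]
        simp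
      · rw [Finset.mem_filter, Finset.mem_filter, mem_bx] at hx0
        obtain ⟨⟨hx0b, hx0L⟩, hx0r⟩ := hx0
        unfold cnt
        refine Finset.card_le_card_of_injOn (fun x => rs p (x - x0)) ?_ ?_
        · intro x hx
          rw [Finset.mem_coe, Finset.mem_filter, Finset.mem_filter, mem_bx] at hx
          obtain ⟨⟨hxb, hxL⟩, hxr⟩ := hx
          have hout : ∀ i, ¬ p i → (x - x0) i = 0 := by
            intro i hi
            have h1 := congrFun (hxr.trans hx0r.symm) ⟨i, hi⟩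
            simp only [rs] at h1
            rw [Pi.sub_apply, h1, sub_self]
          rw [Finset.mem_coe, Finset.mem_filter, mem_bx]
          refine ⟨?_, ?_⟩
          · apply inB_rs N p (x - x0) 8
            intro i
            have h1 := hxb i
            have h2 := hx0b i
            rw [Pi.sub_apply]
            push_cast
            calc |(x i : ℝ) - (x0 i : ℝ)| ≤ |(x i : ℝ)| + |(x0 i : ℝ)| := abs_sub _ _
              _ ≤ 8 * (N i : ℝ) := by linarith
          · obtain ⟨t, ht⟩ := (Lat g e).sub_mem hxL hx0L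
            exact ⟨t, by rw [pt_rs g p _ hout, ht]⟩
        · intro x hx y hy hxy
          rw [Finset.mem_coe, Finset.mem_filter] at hx hy
          funext i
          by_cases hi : p i
          · have h1 := congrFun hxy ⟨i, hi⟩
            simp only [rs, Pi.sub_apply] at h1
            linarith
          · have h1 := congrFun (hx.2.trans hy.2.symm) ⟨i, hi⟩
            simp only [rs] at h1
            exact h1
  have h1 : (cnt (Lat g e) N 4 : ℝ) ≤
      ((cnt (Lat (fun i : {i // p i} => g i) e) (fun i : {i // p i} => N i) 8 *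
        (bx (fun i : {i // ¬ p i} => N i) 4).card : ℕ) : ℝ) := by
    have : cnt (Lat g e) N 4 = ((bx N 4).filter fun x => x ∈ Lat g e).card := by
      unfold cnt
      congr
    rw [this]
    exact_mod_cast key
  refine h1.trans ?_
  push_cast
  have h2 := card_bx_four (fun i : {i // ¬ p i} => N i) (fun i => hN i)
  exact mul_le_mul_of_nonneg_left h2 (Nat.cast_nonneg _)

theorem rst : RstStmt := by
  intro ι _ _ g N ε τ T p _ hN hg hε hτ hF hout
  have hz : ∀ v ∈ T, ∀ i, ¬ p i → v i = 0 := fun v hv =>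
    out_zero N p ε (2 * ε) hout le_rfl v (hF.inb v hv)
  have hinj : Set.InjOn (rs p) (T : Set (ι → ℤ)) := by
    intro v hv w hw h
    rw [← ex_rs p v (hz v hv), ← ex_rs p w (hz w hw), h]
  have hbx : (bx (fun i : {i // p i} => N i) ε).card = (bx N ε).card := by
    refine Finset.card_bij (fun y _ => ex p y) ?_ ?_ ?_
    · intro y hy
      rw [mem_bx] at hy ⊢
      exact inB_ex N p y ε hε.le hy
    · intro y _ z _ h
      rw [← rs_ex p y, ← rs_ex p z, h]
    · intro x hx
      rw [mem_bx] at hx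
      refine ⟨rs p x, ?_, ?_⟩
      · rw [mem_bx]
        exact inB_rs N p x ε hx
      · exact ex_rs p x (out_zero N p ε ε hout (by linarith) x hx)
  refine ⟨T.image (rs p), Finset.card_image_of_injOn hinj, hbx, ?_⟩
  refine ⟨?_, ?_, ?_, ?_, ?_⟩
  · intro v' hv'
    obtain ⟨v, hv, rfl⟩ := Finset.mem_image.1 hv'
    exact inB_rs N p v _ (hF.inb v hv)
  · intro v' hv'
    obtain ⟨v, hv, rfl⟩ := Finset.mem_image.1 hv'
    intro h0
    apply hF.nz v hv
    rw [← ex_rs p v (hz v hv), h0]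
    funext i
    unfold ex
    split_ifs <;> rfl
  · intro v' hv' w' hw' hne t ht
    obtain ⟨v, hv, rfl⟩ := Finset.mem_image.1 hv'
    obtain ⟨w, hw, rfl⟩ := Finset.mem_image.1 hw'
    rw [pt_rs g p v (hz v hv), pt_rs g p w (hz w hw)] at ht
    exact hF.ncol v hv w hw (fun h => hne (by rw [h])) t ht
  · intro v' hv' z hzL hzb
    obtain ⟨v, hv, rfl⟩ := Finset.mem_image.1 hv'
    obtain ⟨t, ht⟩ := hzL
    rw [pt_rs g p v (hz v hv)] at ht
    have h1 : ex p z = 0 := by
      apply hF.mini v hv (ex p z) ⟨t, ?_⟩ (inB_ex N p z ε hε.le hzb)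
      rw [pt_ex, ht]
    rw [← rs_ex p z, h1]
    rfl
  · intro v' hv'
    obtain ⟨v, hv, rfl⟩ := Finset.mem_image.1 hv'
    rw [hbx, pt_rs g p v (hz v hv)]
    have h1 := hF.rich v hv
    have h2 := fiber g N p (pt g v) hN
    set c : ℝ := (cnt (Lat g (pt g v)) N 4 : ℝ) with hc
    set c' : ℝ := (cnt (Lat (fun i : {i // p i} => g i) (pt g v))
      (fun i : {i // p i} => N i) 8 : ℝ) with hc'
    set b : ℝ := ((bx N ε).card : ℝ) with hb
    have hprod : ∏ i, (N i : ℝ) = (∏ i : {i // p i}, (N i : ℝ)) * ∏ i : {i // ¬ p i}, (N i : ℝ) :=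
      (Fintype.prod_subtype_mul_prod_subtype p (fun i => (N i : ℝ))).symm
    have hfil : ∏ i ∈ Finset.univ.filter (fun i => ¬ p i), (81 * (N i : ℝ)) =
        ∏ i : {i // ¬ p i}, (81 * (N i : ℝ)) :=
      Finset.prod_subtype _ (by intro x; simp) _
    have hsq : (∏ i : {i // ¬ p i}, (9 * (N i : ℝ))) ^ 2 =
        (∏ i : {i // ¬ p i}, (81 * (N i : ℝ))) * ∏ i : {i // ¬ p i}, (N i : ℝ) := by
      rw [← Finset.prod_pow, ← Finset.prod_mul_distrib]
      refine Finset.prod_congr rfl fun i _ => ?_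
      ring
    have hpos : ∀ i : ι, (0 : ℝ) < N i := fun i => by
      have : 0 < N i := hN i
      exact_mod_cast this
    set Q : ℝ := ∏ i : {i // ¬ p i}, (N i : ℝ) with hQ
    have hQpos : 0 < Q := Finset.prod_pos fun i _ => hpos i
    set P8 : ℝ := ∏ i : {i // ¬ p i}, (81 * (N i : ℝ)) with hP8
    have hP8pos : 0 < P8 := Finset.prod_pos fun i _ => by
      have := hpos i
      positivity
    set P9 : ℝ := ∏ i : {i // ¬ p i}, (9 * (N i : ℝ)) with hP9
    rw [hfil]
    have hcn : 0 ≤ c := Nat.cast_nonneg _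
    have hbn : 0 ≤ b := Nat.cast_nonneg _
    have h3 : c ^ 2 ≤ c' ^ 2 * (P8 * Q) := by
      rw [← hsq, ← mul_pow]
      exact pow_le_pow_left₀ hcn h2 2
    rw [hprod] at h1
    have h4 : τ * ((∏ i : {i // p i}, (N i : ℝ)) * Q) ≤ c' ^ 2 * (P8 * Q) * b :=
      h1.trans (mul_le_mul_of_nonneg_right h3 hbn)
    have h5 : τ * (∏ i : {i // p i}, (N i : ℝ)) ≤ c' ^ 2 * b * P8 := by
      have h6 : (τ * (∏ i : {i // p i}, (N i : ℝ))) * Q ≤ (c' ^ 2 * b * P8) * Q := by
        linarith [h4]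
      exact le_of_mul_le_mul_right h6 hQpos
    rw [div_mul_eq_mul_div, div_le_iff₀ hP8pos]
    exact h5

end Pool.Agent.PCL.H45
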